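import Pool.Agent.H52.FT.Basic

/-!
# Targets of the modules

Every target is a closed proposition; the module proves it, taking other targets as hypotheses.
-/

namespace Pool.Agent.H52.FT

/-- greedy lemma: `k` letters, each occurring fewer than `k` times, give a word with `k` distinct
letters that is not a subsequence -/
def T_GR : Prop := ∀ (α : Type) [DecidableEq α] (V : Finset α) (w : List α) (k : ℕ),
  1 ≤ k → k ≤ V.card → (∀ z ∈ V, w.count z < k) →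
  ∃ L : List α, Wd V L ∧ L.length = k ∧ ¬ L.Sublist w

/-- grouping by lengths -/
def T_GL : Prop := ∀ (α : Type) (L : List α) (l : ℕ), 1 ≤ l → L ≠ [] →
  ∃ Ls : List (List α), Ls.flatten = L ∧ (∀ M ∈ Ls, M ≠ [] ∧ M.length ≤ l) ∧
    (Ls.length - 1) * l < L.length

/-- grouping by costs -/
def T_GC : Prop := ∀ (α : Type) (p : α → ℝ) (L : List α) (C : ℝ), 0 < C → L ≠ [] →
  (∀ z ∈ L, 0 ≤ p z ∧ p z ≤ C) →
  ∃ Ls : List (List α), Ls.flatten = L ∧ (∀ M ∈ Ls, M ≠ [] ∧ cost p M ≤ C) ∧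
    ((Ls.length : ℝ) - 1) * C ≤ 2 * cost p L

/-- the induction step for `k`-universal words -/
def T_FS : Prop := ∀ (α : Type) [DecidableEq α] (A e X : ℕ), 1 ≤ A → A ≤ e + 1 →
  FB α A e X → FB α (A + 7) (e + A + 2) ((A + 7) * X)

/-- `k`-universal words over an alphabet with at most `8 ^ i` letters -/
def T_FF : Prop := ∀ (α : Type) [DecidableEq α] (i : ℕ),
  FB α (7 * i + 1) (4 * i ^ 2 + 3) (8 ^ i)

/-- a non-subword of least cost exists -/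
def T_MIN : Prop := ∀ (α : Type) (S : Finset α) (p : α → ℝ) (u : List α),
  (∃ L : List α, Wd S L ∧ ¬ L.Sublist u) →
  ∃ L : List α, Wd S L ∧ ¬ L.Sublist u ∧
    ∀ L' : List α, Wd S L' → ¬ L'.Sublist u → cost p L ≤ cost p L'

/-- block lemma: letters of `E` (all of cost at most `P`) cannot replace cheaply any block of `L` -/
def T_WA : Prop := ∀ (α : Type) [DecidableEq α] (A e X : ℕ) (p : α → ℝ) (q P Γ : ℝ)
  (L u : List α) (E : Finset α),
  FB α A e X → 1 ≤ A → 0 < q → q ≤ P → 0 ≤ Γ → L.Nodup → ¬ L.Sublist u →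
  (∀ z ∈ L, q ≤ p z ∧ p z ≤ 9 * q) → E.card ≤ X →
  (∀ L₁ M L₂ N : List α, L = L₁ ++ M ++ L₂ → Wd E N → ¬ (L₁ ++ N ++ L₂).Sublist u →
    cost p M - Γ ≤ N.length * P) →
  cost p L * E.card / P - (e + 9 * A) * (cost p L / q)
    - (Γ / q + 1) * (2 * A * (cost p L / q) + E.card) ≤ tot E u

/-- the block lemma summed over `J` classes of letters -/
def T_WS : Prop := ∀ (α : Type) [DecidableEq α] (A e X J : ℕ) (p : α → ℝ) (q Γ : ℝ)
  (cl : α → ℕ) (P : ℕ → ℝ) (L u : List α) (E : Finset α),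
  FB α A e X → 1 ≤ A → 0 < q → 0 ≤ Γ → L.Nodup → ¬ L.Sublist u →
  (∀ z ∈ L, q ≤ p z ∧ p z ≤ 9 * q) → E.card ≤ X →
  (∀ z ∈ E, q ≤ p z ∧ p z ≤ P (cl z) ∧ cl z < J) →
  (∀ L₁ M L₂ N : List α, L = L₁ ++ M ++ L₂ → Wd E N → ¬ (L₁ ++ N ++ L₂).Sublist u →
    cost p M - Γ ≤ cost p N) →
  cost p L * ∑ z ∈ E, 1 / P (cl z) - J * (e + 9 * A) * (cost p L / q)
    - (Γ / q + 1) * (2 * A * J * (cost p L / q) + E.card) ≤ tot E u

/-- the light letters of all classes together are few -/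
def T_WY : Prop := ∀ (α : Type) [DecidableEq α] (J : ℕ) (S : Finset α) (p : α → ℝ) (q Θ : ℝ)
  (cl : α → ℕ) (P : ℕ → ℝ) (u : List α), 0 < q → 0 < Θ →
  (∀ z ∈ S, q ≤ p z ∧ p z ≤ P (cl z) ∧ cl z < J) →
  (∀ L : List α, Wd S L → ¬ L.Sublist u → Θ ≤ cost p L) →
  ∃ Y : Finset α, Y ⊆ S ∧ (Y.card : ℝ) ≤ J * (Θ / q) ∧
    ∀ z ∈ S \ Y, Θ / P (cl z) - 1 ≤ u.count z

/-- weighted lower bound for the length of `u` by the least cost of a non-subword -/
def T_WL : Prop := ∀ (α : Type) [DecidableEq α] (A e J : ℕ) (S : Finset α) (p : α → ℝ)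
  (q Θ : ℝ) (cl : α → ℕ) (P : ℕ → ℝ) (u : List α),
  FB α A e S.card → 1 ≤ A → 0 < q →
  (∀ z ∈ S, q ≤ p z ∧ p z ≤ P (cl z) ∧ P (cl z) ≤ 9 * q ∧ cl z < J) →
  (∀ L : List α, Wd S L → ¬ L.Sublist u → Θ ≤ cost p L) →
  9 * q ≤ Θ → 56 * A * J * (Θ / q) ≤ S.card →
  Θ * ∑ z ∈ S, 1 / P (cl z) - 2 * S.card - 4 * J * e * (Θ / q) ≤ tot S u

/-- classes of letters: few classes, rounding error compensated by convexity -/
def T_CLS : Prop := ∀ (α : Type) (S : Finset α) (raw : α → ℝ) (n h pb : ℝ),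
  0 < n → 0 < h → 16 * h ≤ n → 7 * n / 8 ≤ pb → pb ≤ 9 * n / 8 →
  (∑ z ∈ S, raw z = S.card * pb) → (∀ z ∈ S, -(n / 8) ≤ raw z ∧ raw z ≤ 2 * n) →
  ∃ (J : ℕ) (cl : α → ℕ) (P : ℕ → ℝ), (J : ℝ) ≤ 4 * √(6 * n / h) + 8 ∧
    (∀ z ∈ S, cl z < J ∧ max (raw z) (n / 4) ≤ P (cl z) ∧ P (cl z) ≤ 9 * n / 4) ∧
    S.card / pb - S.card * h / pb ^ 2 ≤ ∑ z ∈ S, 1 / P (cl z)

/-- a universal word can be lengthened to any total, and cut at any total -/
def T_PRE : Prop := ∀ (α : Type) [DecidableEq α] (S : Finset α) (w : List α) (M m : ℕ),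
  S.Nonempty → Uni S w → tot S w ≤ M → m ≤ M →
  ∃ u b : List α, Uni S (u ++ b) ∧ tot S (u ++ b) = M ∧ tot S u = m

/-- the induction hypothesis: the lower bound holds for all proper sub-alphabets -/
def IH4 (α : Type) [DecidableEq α] (S : Finset α) (C : ℝ) : Prop :=
  ∀ T : Finset α, T ⊂ S → ∀ w : List α, Uni T w →
    (T.card : ℝ) ^ 2 - C * (T.card : ℝ) ^ ((4 : ℝ) / 3) ≤ tot T w

/-- in a short universal word no letter occurs more than `2 n` times -/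
def T_CNT : Prop := ∀ (α : Type) [DecidableEq α] (S : Finset α) (w : List α) (C : ℝ),
  0 ≤ C → IH4 α S C → Uni S w →
  (tot S w : ℝ) ≤ (S.card : ℝ) ^ 2 - C * (S.card : ℝ) ^ ((4 : ℝ) / 3) →
  ∀ z ∈ S, (w.count z : ℝ) ≤ 2 * S.card

/-- the cost of every non-subword of the prefix `u` of a short universal word is large -/
def T_LOW : Prop := ∀ (α : Type) [DecidableEq α] (S : Finset α) (u b : List α) (C lam : ℝ)
  (κ : ℕ) (L : List α), 0 ≤ C → IH4 α S C → Uni S (u ++ b) → tot S u = κ * S.card →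
  (tot S (u ++ b) : ℝ) ≤ (S.card : ℝ) ^ 2 - C * (S.card : ℝ) ^ ((4 : ℝ) / 3) →
  lam = C * (S.card : ℝ) ^ ((1 : ℝ) / 3) →
  16 * κ ≤ S.card → 16 * lam ≤ S.card → Wd S L → ¬ L.Sublist u →
  (κ : ℝ) * S.card - (κ : ℝ) ^ 2 + 7 / 6 * lam * κ - lam ^ 2 ≤
    cost (fun z => 2 * (S.card : ℝ) - 2 * κ - b.count z) L

/-- the final contradiction (real inequality); `Je` stands for the product `J * e` -/
def T_ARI : Prop := ∀ (n κ lam lam0 pb h Je Θ Sg : ℝ), 0 < lam → 16 * lam ≤ n → 1 ≤ n →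
  16 * κ ≤ n → lam ≤ lam0 → lam0 ≤ lam + 1 / n → pb = n - κ + lam0 → h = lam / 48 →
  Θ = κ * n - κ ^ 2 + 7 / 6 * lam * κ - lam ^ 2 → 0 ≤ Je → 336 * Je ≤ lam →
  n / pb - n * h / pb ^ 2 ≤ Sg → Θ * Sg - 2 * n - 4 * Je * (Θ / (n / 4)) ≤ κ * n →
  16 * lam + (36 * n + 16) / lam < κ → False

/-- the induction step -/
def T_STEP : Prop := ∀ (α : Type) [DecidableEq α] (A e : ℕ) (S : Finset α) (C n lam J : ℝ)
  (κ : ℕ) (w : List α), FB α A e S.card → 1 ≤ A → IH4 α S C → n = S.card →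
  lam = C * n ^ ((1 : ℝ) / 3) → J = 4 * √(288 * n / lam) + 8 → 0 < lam → 16 * lam ≤ n →
  336 * J * e ≤ lam → 16 * lam + (36 * n + 16) / lam < κ → 250 * A * J * κ ≤ n →
  Uni S w → n ^ 2 - C * n ^ ((4 : ℝ) / 3) ≤ tot S w

/-- choice of the parameters; `s = √C`, `t = n^(1/3)` -/
def T_NUM : Prop := ∀ (A e : ℕ) (s t lam n J : ℝ), 1 ≤ A → 0 < s →
  32000000000 * ((A : ℝ) + e) ≤ s ^ 3 → s ^ 4 ≤ 25600 * t → lam = s ^ 2 * t → n = t ^ 3 →
  J = 4 * √(288 * n / lam) + 8 →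
  0 < lam ∧ 16 * lam ≤ n ∧ 336 * J * e ≤ lam ∧
    ∃ κ : ℕ, 16 * lam + (36 * n + 16) / lam < κ ∧ 250 * A * J * κ ≤ n

/-- the known bound `n² - 160 n^(3/2)` for a sub-alphabet -/
def T_TR : Prop := ∀ (α : Type) [DecidableEq α] (S : Finset α) (w : List α), Uni S w →
  (S.card : ℝ) ^ 2 - 160 * (S.card : ℝ) ^ ((3 : ℝ) / 2) ≤ tot S w

/-- the lower bound for alphabets with at most `8 ^ i` letters -/
def T_IND : Prop := ∀ (α : Type) [DecidableEq α] (i : ℕ) (S : Finset α) (w : List α),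
  S.card ≤ 8 ^ i → Uni S w →
  (S.card : ℝ) ^ 2 - (32000000000 * (4 * (i : ℝ) ^ 2 + 7 * i + 4)) ^ ((2 : ℝ) / 3) *
    (S.card : ℝ) ^ ((4 : ℝ) / 3) ≤ tot S w

/-- the final lower bound -/
def T_FIN : Prop := ∀ (α : Type) [DecidableEq α] (S : Finset α) (w : List α),
  1 ≤ S.card → Uni S w →
  (S.card : ℝ) ^ 2 - 10 ^ 8 * ((S.card : ℝ) * (1 + Real.log S.card)) ^ ((4 : ℝ) / 3) ≤ tot S w

/-- in every suffix of `w` the numbers of occurrences of two letters of `S` differ by at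
most `b` -/
def SBal {α : Type} [DecidableEq α] (b : ℕ) (S : Finset α) (w : List α) : Prop :=
  ∀ v : List α, v <:+ w → ∀ a ∈ S, ∀ a' ∈ S, v.count a ≤ v.count a' + b

/-- universal words with balanced suffixes -/
def T_BAL : Prop := ∀ (α : Type) [DecidableEq α] (A e b X : ℕ) (S : Finset α) (w : List α),
  2 ≤ A → FB α A e X → S.card ≤ X → 1 ≤ S.card → Uni S w → SBal b S w →
  (S.card : ℝ) ^ 2 - S.card * (A + (e + b + 1) * Real.log S.card) ≤ tot S w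

/-- universal words with balanced suffixes, explicit form -/
def T_BF : Prop := ∀ (α : Type) [DecidableEq α] (b : ℕ) (S : Finset α) (w : List α),
  1 ≤ S.card → Uni S w → SBal b S w →
  (S.card : ℝ) ^ 2 - 16 * S.card * (1 + Real.log S.card) ^ 3
    - b * S.card * (1 + Real.log S.card) ≤ tot S w

end Pool.Agent.H52.FT
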