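import Pool.Agent.H52.FT.Defs

/-!
# Basic facts on subsequences
-/

namespace Pool.Agent.H52.FT

variable {α : Type}

lemma not_sublist_append {L M u v : List α} (hL : ¬ L.Sublist u) (hM : ¬ M.Sublist v) :
    ¬ (L ++ M).Sublist (u ++ v) := by
  intro h
  rw [List.sublist_append_iff] at h
  obtain ⟨A, B, hAB, hA, hB⟩ := h
  rcases List.append_eq_append_iff.mp hAB with ⟨C, h1, h2⟩ | ⟨C, h1, h2⟩
  · -- A = L ++ C
    apply hL
    rw [h1] at hA
    exact (List.sublist_append_left _ _).trans hA
  · apply hM
    rw [h2] at hB
    exact (List.sublist_append_right _ _).trans hB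

lemma sublist_right_of_not_left {L M u v : List α} (hL : ¬ L.Sublist u)
    (h : (L ++ M).Sublist (u ++ v)) : M.Sublist v := by
  by_contra hM
  exact not_sublist_append hL hM h

lemma ne_nil_of_not_sublist {L u : List α} (h : ¬ L.Sublist u) : L ≠ [] := by
  rintro rfl; exact h (List.nil_sublist _)

lemma not_sublist_nil {L : List α} (h : L ≠ []) : ¬ L.Sublist [] := by
  intro h'; exact h (List.sublist_nil.mp h')

/-- a word with distinct letters that is not a subsequence can be split -/
lemma split {M : List α} (hM : M ≠ []) : ∀ (w L : List α), (L ++ M).Nodup → L ≠ [] →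
    ¬ (L ++ M).Sublist w → ∃ u v : List α, w = u ++ v ∧ ¬ L.Sublist u ∧ ¬ M.Sublist v := by
  intro w
  induction w with
  | nil =>
    intro L _ hL _
    exact ⟨[], [], rfl, not_sublist_nil hL, not_sublist_nil hM⟩
  | cons a w ih =>
    intro L hnd hL h
    classical
    rcases L with _ | ⟨c, L⟩
    · exact absurd rfl hL
    · by_cases hca : c = a
      · subst hca
        have hnd' : (L ++ M).Nodup := (List.nodup_cons.mp hnd).2
        have hc : c ∉ L ++ M := (List.nodup_cons.mp hnd).1
        have h' : ¬ (L ++ M).Sublist w := by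
          intro h'
          exact h (List.Sublist.cons_cons c h')
        by_cases hL1 : L = []
        · subst hL1
          refine ⟨[], c :: w, rfl, not_sublist_nil hL, ?_⟩
          intro hM'
          rcases List.sublist_cons_iff.mp hM' with h2 | ⟨r, h2, h3⟩
          · exact h' h2
          · apply hc
            simp only [List.nil_append]
            rw [h2]; exact List.mem_cons_self
        · obtain ⟨u, v, rfl, h1, h2⟩ := ih L hnd' hL1 h'
          refine ⟨c :: u, v, rfl, ?_, h2⟩
          intro h3
          exact h1 (List.cons_sublist_cons.mp h3)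
      · have h' : ¬ ((c :: L) ++ M).Sublist w := fun h' => h (h'.cons a)
        obtain ⟨u, v, rfl, h1, h2⟩ := ih (c :: L) hnd hL h'
        refine ⟨a :: u, v, rfl, ?_, h2⟩
        intro h3
        rcases List.sublist_cons_iff.mp h3 with h4 | ⟨r, h4, h5⟩
        · exact h1 h4
        · rw [List.cons.injEq] at h4
          exact hca h4.1

/-- splitting into several blocks, with the replacement property -/
lemma multi_split : ∀ (Ls : List (List α)) (w : List α), (∀ M ∈ Ls, M ≠ []) →
    Ls.flatten.Nodup → ¬ Ls.flatten.Sublist w →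
    ∃ Q : List (List α × List α), Q.map Prod.fst = Ls ∧ (Q.map Prod.snd).flatten = w ∧
      (∀ q ∈ Q, ¬ q.1.Sublist q.2) ∧
      ∀ q ∈ Q, ∃ L₁ L₂ : List α, Ls.flatten = L₁ ++ q.1 ++ L₂ ∧
        ∀ N : List α, ¬ N.Sublist q.2 → ¬ (L₁ ++ N ++ L₂).Sublist w := by
  intro Ls
  induction Ls with
  | nil =>
    intro w _ _ h
    exact absurd (List.nil_sublist w) h
  | cons M Ls ih =>
    intro w hne hnd h
    by_cases hLs : Ls = []
    · subst hLs
      refine ⟨[(M, w)], rfl, by simp, ?_, ?_⟩
      · intro q hq
        rw [List.mem_singleton] at hq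
        subst hq
        simpa using h
      · intro q hq
        rw [List.mem_singleton] at hq
        subst hq
        exact ⟨[], [], by simp, fun N hN => by simpa using hN⟩
    · have hM : M ≠ [] := hne M List.mem_cons_self
      have hne' : ∀ N ∈ Ls, N ≠ [] := fun N hN => hne N (List.mem_cons_of_mem _ hN)
      have hfl : Ls.flatten ≠ [] := by
        obtain ⟨N, Ls', rfl⟩ := List.exists_cons_of_ne_nil hLs
        intro h0
        rw [List.flatten_cons, List.append_eq_nil_iff] at h0
        exact hne' N List.mem_cons_self h0.1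
      rw [List.flatten_cons] at hnd h
      obtain ⟨u, v, rfl, hu, hv⟩ := split hfl w M hnd hM h
      obtain ⟨Q, hQ1, hQ2, hQ3, hQ4⟩ := ih v hne' (List.nodup_append.mp hnd).2.1 hv
      refine ⟨(M, u) :: Q, by simp [hQ1], by simp [hQ2], ?_, ?_⟩
      · intro q hq
        rcases List.mem_cons.mp hq with rfl | hq
        · exact hu
        · exact hQ3 q hq
      · intro q hq
        rcases List.mem_cons.mp hq with rfl | hq
        · refine ⟨[], Ls.flatten, by simp, fun N hN => ?_⟩
          rw [List.nil_append]
          exact not_sublist_append hN hv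
        · obtain ⟨L₁, L₂, h1, h2⟩ := hQ4 q hq
          refine ⟨M ++ L₁, L₂, by rw [List.flatten_cons, h1]; simp, fun N hN => ?_⟩
          have := not_sublist_append hu (h2 N hN)
          simpa [List.append_assoc] using this

lemma cost_append (p : α → ℝ) (L M : List α) : cost p (L ++ M) = cost p L + cost p M := by
  simp [cost]

lemma cost_cons (p : α → ℝ) (z : α) (L : List α) : cost p (z :: L) = p z + cost p L := by
  simp [cost]

@[simp] lemma cost_nil (p : α → ℝ) : cost p ([] : List α) = 0 := by simp [cost]

variable [DecidableEq α]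

lemma tot_append (S : Finset α) (u v : List α) : tot S (u ++ v) = tot S u + tot S v := by
  simp [tot, List.count_append, Finset.sum_add_distrib]

lemma tot_flatten (S : Finset α) (Bs : List (List α)) :
    tot S Bs.flatten = (Bs.map (tot S)).sum := by
  induction Bs with
  | nil => simp [tot]
  | cons B Bs ih => rw [List.flatten_cons, tot_append, ih]; simp

lemma tot_mono {S T : Finset α} (h : S ⊆ T) (w : List α) : tot S w ≤ tot T w :=
  Finset.sum_le_sum_of_subset h

lemma tot_union {S T : Finset α} (h : Disjoint S T) (w : List α) :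
    tot (S ∪ T) w = tot S w + tot T w := Finset.sum_union h

lemma tot_sdiff {S T : Finset α} (h : T ⊆ S) (w : List α) :
    tot S w = tot (S \ T) w + tot T w := (Finset.sum_sdiff h).symm

lemma KU.mono {S T : Finset α} {w : List α} {k : ℕ} (h : KU S w k) (hT : T ⊆ S) : KU T w k :=
  fun L hL hk => h L ⟨hL.1, fun z hz => hT (hL.2 z hz)⟩ hk

lemma Uni.mono {S T : Finset α} {w : List α} (h : Uni S w) (hT : T ⊆ S) : Uni T w :=
  fun L hL => h L ⟨hL.1, fun z hz => hT (hL.2 z hz)⟩

end Pool.Agent.H52.FT
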