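import Mathlib

/-!
# Words containing many words with distinct letters: definitions

Used for the lower bound for the shortest universal supersequence.
-/

namespace Pool.Agent.H52.FT

/-- `L` is a word with distinct letters, all of them in `S`. -/
def Wd {α : Type} (S : Finset α) (L : List α) : Prop := L.Nodup ∧ ∀ z ∈ L, z ∈ S

/-- the number of positions of `w` whose letter is in `S` -/
def tot {α : Type} [DecidableEq α] (S : Finset α) (w : List α) : ℕ := ∑ a ∈ S, w.count a

/-- `w` contains every word with exactly `k` distinct letters of `S` as a subsequence -/
def KU {α : Type} (S : Finset α) (w : List α) (k : ℕ) : Prop :=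
  ∀ L : List α, Wd S L → L.length = k → L.Sublist w

/-- `w` contains every word with distinct letters of `S` as a subsequence -/
def Uni {α : Type} (S : Finset α) (w : List α) : Prop := ∀ L : List α, Wd S L → L.Sublist w

/-- the sum of the costs of the letters of `L` -/
def cost {α : Type} (p : α → ℝ) (L : List α) : ℝ := (L.map p).sum

/-- the bound `k (|S| - e)` for `k`-universal words, for `k ≤ |S| / A` and `|S| ≤ X` -/
def FB (α : Type) [DecidableEq α] (A e X : ℕ) : Prop :=
  ∀ (S : Finset α) (w : List α) (k : ℕ), S.card ≤ X → A * k ≤ S.card → KU S w k →
    k * S.card ≤ tot S w + k * e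

end Pool.Agent.H52.FT
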