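import Pool.Agent.H52.FT.Targets

/-!
# The induction step for `k`-universal words
-/

namespace Pool.Agent.H52.FT.FSm

open Pool.Agent.H52.FT

variable {α : Type} [DecidableEq α]

lemma light (h1 : T_GR) (S : Finset α) (w : List α) (j : ℕ) (hj : 1 ≤ j) (hku : KU S w j) :
    (S.filter (fun z => w.count z < j)).card < j := by
  by_contra hcon
  push Not at hcon
  obtain ⟨L, hL, hlen, hn⟩ := h1 α (S.filter (fun z => w.count z < j)) w j hj hcon (by
    intro z hz
    exact (Finset.mem_filter.mp hz).2)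
  exact hn (hku L ⟨hL.1, fun z hz => (Finset.mem_filter.mp (hL.2 z hz)).1⟩ hlen)

/-- count bound -/
lemma cb (h1 : T_GR) (S' : Finset α) (w : List α) (k j : ℕ) (hk : 1 ≤ k) (hkj : k ≤ j)
    (hku : KU S' w j) (hc : ∀ z ∈ S', k ≤ w.count z) :
    (k : ℤ) * S'.card + ((j : ℤ) - k) * ((S'.card : ℤ) - (j - 1)) ≤ tot S' w := by
  have hB := light h1 S' w j (by omega) hku
  have h2 : ∀ z ∈ S', (k : ℤ) + (if j ≤ w.count z then ((j : ℤ) - k) else 0) ≤ w.count z := by
    intro z hz
    split_ifs with h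
    · have : (j : ℤ) ≤ w.count z := by exact_mod_cast h
      linarith
    · have := hc z hz
      have : (k : ℤ) ≤ w.count z := by exact_mod_cast this
      linarith
  have h3 := Finset.sum_le_sum h2
  rw [Finset.sum_add_distrib, Finset.sum_const, ← Finset.sum_filter, Finset.sum_const] at h3
  have h4 : (S'.filter (fun z => j ≤ w.count z)).card + (S'.filter (fun z => w.count z < j)).card
      = S'.card := by
    have := Finset.card_filter_add_card_filter_not (s := S') (fun z => j ≤ w.count z)
    rw [← this]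
    congr 2
    apply Finset.filter_congr
    intro z _
    exact not_le.symm
  unfold tot
  push_cast
  rw [nsmul_eq_mul, nsmul_eq_mul] at h3
  have h5 : ((S'.filter (fun z => j ≤ w.count z)).card : ℤ) ≥ (S'.card : ℤ) - (j - 1) := by
    have : (S'.filter (fun z => j ≤ w.count z)).card + j ≥ S'.card + 1 := by omega
    have : ((S'.filter (fun z => j ≤ w.count z)).card : ℤ) + j ≥ S'.card + 1 := by exact_mod_cast this
    linarith
  have h6 : (0 : ℤ) ≤ (j : ℤ) - k := by
    have : (k : ℤ) ≤ j := by exact_mod_cast hkj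
    linarith
  nlinarith

lemma sum_map_sub_const {β : Type} (Q : List β) (f : β → ℤ) (c : ℤ) :
    (Q.map (fun q => f q - c)).sum = (Q.map f).sum - Q.length * c := by
  induction Q with
  | nil => simp
  | cons a Q ih =>
    simp only [List.map_cons, List.sum_cons, List.length_cons, ih]
    push_cast
    ring

theorem fs (h1 : T_GR) (h2 : T_GL) : T_FS := by
  intro α _ A e X hA hAe hFB S w k hSX hAk hku
  rcases Nat.eq_zero_or_pos k with hk0 | hk0
  · subst hk0; simp
  set Y := S.filter (fun z => w.count z < k) with hY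
  have hYS : Y ⊆ S := Finset.filter_subset _ _
  have hy : Y.card < k := light h1 S w k hk0 hku
  set S' := S \ Y with hS'
  have hS'S : S' ⊆ S := Finset.sdiff_subset
  have hcard : S'.card + Y.card = S.card := by
    rw [hS', Finset.card_sdiff_of_subset hYS]
    have := Finset.card_le_card hYS
    omega
  have hcS' : ∀ z ∈ S', k ≤ w.count z := by
    intro z hz
    rw [hS', Finset.mem_sdiff] at hz
    by_contra hcon
    push Not at hcon
    exact hz.2 (Finset.mem_filter.mpr ⟨hz.1, hcon⟩)
  have htot : tot S w = tot S' w + tot Y w := tot_sdiff hYS w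
  -- the trivial bound
  have htriv : k * S'.card ≤ tot S' w := by
    unfold tot
    calc k * S'.card = ∑ _z ∈ S', k := by rw [Finset.sum_const, smul_eq_mul, mul_comm]
      _ ≤ _ := Finset.sum_le_sum hcS'
  by_cases hye : Y.card ≤ e
  · rw [← hcard, htot]
    have : k * Y.card ≤ k * e := Nat.mul_le_mul_left k hye
    nlinarith
  push Not at hye
  have hAy : A ≤ Y.card := by omega
  set y := Y.card with hydef
  set g := (y + A - 1) / A with hg
  have hg1 : y ≤ A * g := by
    have h := Nat.div_add_mod (y + A - 1) A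
    have h' := Nat.mod_lt (y + A - 1) (by omega : A > 0)
    rw [← hg] at h
    omega
  have hg2 : A * g ≤ y + A - 1 := Nat.mul_div_le _ _
  have hgy : g ≤ y := by
    by_contra hcon
    push Not at hcon
    have : A * (y + 1) ≤ A * g := Nat.mul_le_mul_left A hcon
    have h3 : A * (y + 1) = A * y + A := by ring
    have h4 : y ≤ A * y := Nat.le_mul_of_pos_left y (by omega)
    omega
  have hg0 : 1 ≤ g := by
    rcases Nat.eq_zero_or_pos g with h | h
    · rw [h] at hg1; omega
    · exact h
  -- integer facts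
  have hx : ((A : ℤ) + 7) * k ≤ S.card := by exact_mod_cast hAk
  have hcardZ : (S'.card : ℤ) + y = S.card := by exact_mod_cast hcard
  have hykZ : (y : ℤ) + 1 ≤ k := by exact_mod_cast hy
  have hgyZ : (g : ℤ) ≤ y := by exact_mod_cast hgy
  have hg1Z : (y : ℤ) ≤ A * g := by exact_mod_cast hg1
  have hg2Z : (A : ℤ) * g + 1 ≤ y + A := by
    have : A * g + 1 ≤ y + A := by omega
    exact_mod_cast this
  have hAyZ : (A : ℤ) ≤ y := by exact_mod_cast hAy
  have hA1Z : (1 : ℤ) ≤ A := by exact_mod_cast hA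
  have hg0Z : (1 : ℤ) ≤ g := by exact_mod_cast hg0
  have hyeZ : (e : ℤ) + 1 ≤ y := by exact_mod_cast hye
  have he0 : (0 : ℤ) ≤ e := Nat.cast_nonneg e
  have hk0Z : (1 : ℤ) ≤ k := by exact_mod_cast hk0
  by_cases hcase : KU S' w (k + g)
  · have h3 := cb h1 S' w k (k + g) hk0 (by omega) hcase hcS'
    have h4 : (k : ℤ) * S.card ≤ tot S' w := by
      refine le_trans ?_ h3
      push_cast
      have e1 : (k : ℤ) + g - k = g := by ring
      rw [e1]
      have h5 : ((A : ℤ) + 4) * k ≤ (S'.card : ℤ) - (k + g - 1) := by nlinarith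
      have h6 : (g : ℤ) * (((A : ℤ) + 4) * k) ≤ g * ((S'.card : ℤ) - (k + g - 1)) :=
        mul_le_mul_of_nonneg_left h5 (by linarith)
      have h7 : (k : ℤ) * y ≤ g * (((A : ℤ) + 4) * k) := by
        have : (k : ℤ) * y ≤ k * (A * g) := mul_le_mul_of_nonneg_left hg1Z (by linarith)
        nlinarith [mul_nonneg (by linarith : (0:ℤ) ≤ g) (by linarith : (0:ℤ) ≤ k)]
      rw [← hcardZ]
      nlinarith
    have h5 : k * S.card ≤ tot S' w := by exact_mod_cast h4
    rw [htot]
    nlinarith [Nat.zero_le (k * (e + A + 2)), Nat.zero_le (tot Y w)]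
  -- the least `k'`
  have hex : ∃ j, k < j ∧ ¬ KU S' w j := ⟨k + g, by omega, hcase⟩
  classical
  set k' := Nat.find hex with hk'
  obtain ⟨hkk', hnk'⟩ := Nat.find_spec hex
  rw [← hk'] at hkk' hnk'
  have hk'le : k' ≤ k + g := Nat.find_min' hex ⟨by omega, hcase⟩
  have hKUpred : KU S' w (k' - 1) := by
    by_cases h : k' - 1 = k
    · rw [h]; exact hku.mono hS'S
    · have h3 := Nat.find_min hex (m := k' - 1) (by omega)
      push Not at h3
      exact h3 (by omega)
  have hcb := cb h1 S' w k (k' - 1) hk0 (by omega) hKUpred hcS'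
  obtain ⟨G, hG⟩ : ∃ G, k' = k + G := ⟨k' - k, by omega⟩
  have hG1 : 1 ≤ G := by omega
  have hGg : G ≤ g := by omega
  have hex2 : ∃ L : List α, Wd S' L ∧ L.length = k' ∧ ¬ L.Sublist w := by
    unfold KU at hnk'
    push Not at hnk'
    obtain ⟨L, h3, h4, h5⟩ := hnk'
    exact ⟨L, h3, h4, h5⟩
  obtain ⟨L, hL, hLlen, hLn⟩ := hex2
  set l0 := y / A + G with hl0
  obtain ⟨Ls, hLs1, hLs2, hLs3⟩ := h2 α L l0 (hG1.trans (Nat.le_add_left _ _)) (ne_nil_of_not_sublist hLn)
  obtain ⟨Q, hQ1, hQ2, hQ3, hQ4⟩ := multi_split Ls w (fun M hM => (hLs2 M hM).1)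
    (by rw [hLs1]; exact hL.1) (by rw [hLs1]; exact hLn)
  -- `Y` inside a chunk
  have hYX : Y.card ≤ X := by
    have h3 : (A + 7) * Y.card ≤ (A + 7) * X := by
      calc (A + 7) * Y.card ≤ (A + 7) * k := Nat.mul_le_mul_left _ hy.le
        _ ≤ S.card := hAk
        _ ≤ (A + 7) * X := hSX
    exact Nat.le_of_mul_le_mul_left h3 (by omega)
  have hchunk : ∀ q ∈ Q, ((q.1.length : ℤ) - G) * ((y : ℤ) - e) ≤ tot Y q.2 := by
    intro q hq
    have hq1 : q.1 ∈ Ls := by rw [← hQ1]; exact List.mem_map_of_mem hq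
    have hlen := (hLs2 q.1 hq1).2
    by_cases hle : q.1.length ≤ G
    · have h3 : (q.1.length : ℤ) - G ≤ 0 := by
        have : (q.1.length : ℤ) ≤ G := by exact_mod_cast hle
        linarith
      have h4 : ((q.1.length : ℤ) - G) * ((y : ℤ) - e) ≤ 0 :=
        mul_nonpos_of_nonpos_of_nonneg h3 (by linarith)
      have h5 : (0 : ℤ) ≤ (tot Y q.2 : ℤ) := Nat.cast_nonneg _
      linarith
    push Not at hle
    obtain ⟨s, hs⟩ : ∃ s, q.1.length = s + G := ⟨q.1.length - G, by omega⟩
    have hsy : s ≤ y / A := by omega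
    have hAs : A * s ≤ Y.card := by
      calc A * s ≤ A * (y / A) := Nat.mul_le_mul_left A hsy
        _ ≤ y := Nat.mul_div_le y A
    have hKUY : KU Y q.2 s := by
      intro N hN hNlen
      by_contra hNn
      obtain ⟨L₁, L₂, h3, h4⟩ := hQ4 q hq
      have h5 := h4 N hNn
      rw [hLs1] at h3
      apply h5
      have hnd : (L₁ ++ N ++ L₂).Nodup := by
        have h6 := hL.1
        rw [h3] at h6
        rw [List.append_assoc, List.nodup_append] at h6 ⊢
        have h7 := h6.2.1
        rw [List.nodup_append] at h7 ⊢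
        refine ⟨h6.1, ⟨hN.1, h7.2.1, ?_⟩, ?_⟩
        · intro a ha b hb hab
          subst hab
          have h8 := hN.2 a ha
          have h9 := hL.2 a (by rw [h3]; simp [hb])
          rw [hS', Finset.mem_sdiff] at h9
          exact h9.2 h8
        · intro a ha b hb hab
          subst hab
          rcases List.mem_append.mp hb with hb | hb
          · have h8 := hN.2 a hb
            have h9 := hL.2 a (by rw [h3]; simp [ha])
            rw [hS', Finset.mem_sdiff] at h9
            exact h9.2 h8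
          · exact h6.2.2 a ha a (List.mem_append_right _ hb) rfl
      apply hku (L₁ ++ N ++ L₂) ⟨hnd, ?_⟩
      · have h6 : L.length = (L₁ ++ q.1 ++ L₂).length := by rw [h3]
        simp only [List.length_append] at h6 ⊢
        omega
      · intro z hz
        rcases List.mem_append.mp hz with hz | hz
        · rcases List.mem_append.mp hz with hz | hz
          · exact hS'S (hL.2 z (by rw [h3]; simp [hz]))
          · exact hYS (hN.2 z hz)
        · exact hS'S (hL.2 z (by rw [h3]; simp [hz]))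
    have h3 := hFB Y q.2 s hYX hAs hKUY
    have h4 : (s : ℤ) * y ≤ tot Y q.2 + s * e := by exact_mod_cast h3
    have h5 : (q.1.length : ℤ) = s + G := by exact_mod_cast hs
    rw [h5]
    linarith [h4, (by ring : ((s : ℤ) + G - G) * ((y : ℤ) - e) = s * y - s * e)]
  -- sum over the chunks
  set b := Ls.length with hb
  have hQlen : Q.length = b := by rw [hb, ← hQ1, List.length_map]
  have hsum : ((k' : ℤ) - b * G) * ((y : ℤ) - e) ≤ tot Y w := by
    rw [← hQ2, tot_flatten]
    have h3 : (k' : ℤ) = (Q.map (fun q => (q.1.length : ℤ))).sum := by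
      rw [← hLlen, ← hLs1, List.length_flatten, ← hQ1]
      rw [List.map_map]
      push_cast
      rw [List.map_map]
      rfl
    have h5 : ((k' : ℤ) - b * G) * ((y : ℤ) - e) =
        (Q.map (fun q => ((q.1.length : ℤ) - G) * ((y : ℤ) - e))).sum := by
      rw [h3, List.sum_map_mul_right, sum_map_sub_const, hQlen]
    rw [h5, List.map_map]
    push_cast
    rw [List.map_map]
    apply List.sum_le_sum
    intro q hq
    exact hchunk q hq
  -- the arithmetic
  have hb1 : 1 ≤ b := by
    rcases Nat.eq_zero_or_pos b with h | h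
    · exfalso
      have h3 : Ls = [] := List.length_eq_zero_iff.mp (by rw [← hb]; exact h)
      rw [h3] at hLs1
      simp at hLs1
      rw [hLs1] at hLn
      exact hLn (List.nil_sublist _)
    · exact h
  have hl0Z : (y : ℤ) ≤ A * l0 := by
    have h3 := Nat.div_add_mod y A
    have h4 := Nat.mod_lt y (by omega : A > 0)
    have h5 : y ≤ A * l0 := by
      rw [hl0, mul_add]
      have : A ≤ A * G := Nat.le_mul_of_pos_right A hG1
      omega
    exact_mod_cast h5
  have hbl : ((b : ℤ) - 1) * l0 ≤ k' := by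
    have h3 : (b - 1) * l0 ≤ k' := by rw [← hLlen]; exact hLs3.le
    have h4 : ((b - 1 : ℕ) : ℤ) = (b : ℤ) - 1 := by push_cast [hb1]; ring
    rw [← h4]
    exact_mod_cast h3
  have hk'Z : (k' : ℤ) = k + G := by exact_mod_cast hG
  have hGgZ : (G : ℤ) ≤ g := by exact_mod_cast hGg
  have hG1Z : (1 : ℤ) ≤ G := by exact_mod_cast hG1
  have hb1Z : (1 : ℤ) ≤ b := by exact_mod_cast hb1
  have hAk' : (A : ℤ) * k' ≤ (A + 2) * k := by
    rw [hk'Z]
    have : (A : ℤ) * G ≤ A * g := mul_le_mul_of_nonneg_left hGgZ (by linarith)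
    nlinarith
  have hby : ((b : ℤ) - 1) * y ≤ (A + 2) * k := by
    calc ((b : ℤ) - 1) * y ≤ ((b : ℤ) - 1) * (A * l0) :=
          mul_le_mul_of_nonneg_left hl0Z (by linarith)
      _ = A * (((b : ℤ) - 1) * l0) := by ring
      _ ≤ A * k' := mul_le_mul_of_nonneg_left hbl (by linarith)
      _ ≤ _ := hAk'
  have hloss : ((b : ℤ) - 1) * G * ((y : ℤ) - e) ≤ G * ((A + 2) * k) := by
    calc ((b : ℤ) - 1) * G * ((y : ℤ) - e) ≤ ((b : ℤ) - 1) * G * y := by
          apply mul_le_mul_of_nonneg_left (by linarith)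
          exact mul_nonneg (by linarith) (by linarith)
      _ = G * (((b : ℤ) - 1) * y) := by ring
      _ ≤ _ := mul_le_mul_of_nonneg_left hby (by linarith)
  have hk'1 : ((k' - 1 : ℕ) : ℤ) = k + G - 1 := by
    have : 1 ≤ k' := by omega
    push_cast [this]
    rw [hk'Z]
  rw [hk'1] at hcb
  have hgain : ((G : ℤ) - 1) * ((A + 2) * k) ≤ ((G : ℤ) - 1) * ((S'.card : ℤ) - (k + G - 1 - 1)) := by
    apply mul_le_mul_of_nonneg_left _ (by linarith)
    nlinarith
  have hfinal : (k : ℤ) * S.card ≤ tot S w + k * (e + A + 2) := by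
    rw [htot]
    push_cast
    rw [← hcardZ]
    rw [hk'Z] at hsum
    have e1 : ((k : ℤ) + G - b * G) * ((y : ℤ) - e) = k * (y - e) - ((b : ℤ) - 1) * G * ((y : ℤ) - e) := by
      ring
    rw [e1] at hsum
    have e2 : ((k : ℤ) + G - 1 - k) * ((S'.card : ℤ) - (k + G - 1 - 1)) =
        ((G : ℤ) - 1) * ((S'.card : ℤ) - (k + G - 1 - 1)) := by ring
    rw [e2] at hcb
    nlinarith
  exact_mod_cast hfinal

end Pool.Agent.H52.FT.FSm
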