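import Pool.Agent.H52.FT.Words
import Pool.Agent.H52.FT.FS
import Pool.Agent.H19.FT.CNT
import Pool.Agent.H33.FT.NUM
import Pool.Agent.H33.FT.PRE
import Pool.Agent.H46.FT.CLS
import Pool.Agent.H46.FT.WL
import Pool.Agent.H46.FT.STEP
import Pool.Agent.H54.FT.All
import Pool.Agent.H56.FT.BF
import Pool.Agent.H56.FT.GL
import Pool.Agent.H56.FT.LOW
import Pool.Agent.H56.FT.MIN
import Pool.Agent.H56.FT.WY
import Pool.Agent.H57.FT.ARI
import Pool.Agent.H57.FT.BAL
import Pool.Agent.H97.FT.GC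
import Pool.Agent.H97.FT.GR
import Pool.Agent.H97.FT.WA
import Pool.Agent.H97.FT.WS

/-!
# Assembly of the modules
-/

namespace Pool.Agent.H52.FT

theorem all_ff : T_FF := H54.FT.ff (FSm.fs H97.FT.GR.gr H56.FT.GL.gl)

theorem all_wl : T_WL :=
  H46.FT.WL.wl H56.FT.MIN.mn (H97.FT.WS.ws (H97.FT.WA.wa H97.FT.GC.gc)) (H56.FT.WY.wy H97.FT.GR.gr)

theorem all_step : T_STEP :=
  H46.FT.STEP.stp all_wl H46.FT.CLS.cls H33.FT.PRE.pre H19.FT.cnt H56.FT.LOW.low H57.FT.ARI.ari

theorem all_fin : T_FIN := H54.FT.fin (H54.FT.ind all_ff all_step H33.FT.NUM.num H54.FT.tr)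

theorem all_bf : T_BF := H56.FT.BF.bf all_ff H57.FT.BAL.bal

open Words

/-- the lower bound for universal words -/
theorem lower_four_thirds {n : ℕ} (hn : 1 ≤ n) (w : List (Fin n))
    (hw : ∀ σ : Equiv.Perm (Fin n), (List.ofFn σ).Sublist w) :
    (n : ℝ) ^ 2 - 10 ^ 8 * ((n : ℝ) * (1 + Real.log n)) ^ ((4 : ℝ) / 3) ≤ w.length := by
  have h := all_fin (Fin n) Finset.univ w (by rw [Finset.card_univ, Fintype.card_fin]; exact hn)
    (uni_of_universal hw)
  rwa [tot_univ, Finset.card_univ, Fintype.card_fin] at h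

/-- the lower bound with exponent `3/2` and a small constant (helper41) -/
theorem lower_three_halves {n : ℕ} (w : List (Fin n))
    (hw : ∀ σ : Equiv.Perm (Fin n), (List.ofFn σ).Sublist w) :
    (n : ℝ) ^ 2 - 160 * (n : ℝ) ^ ((3 : ℝ) / 2) ≤ w.length := by
  have h := H54.FT.tr (Fin n) Finset.univ w (uni_of_universal hw)
  rwa [tot_univ, Finset.card_univ, Fintype.card_fin] at h

/-- the lower bound for universal words with balanced suffixes -/
theorem lower_balanced {n : ℕ} (hn : 1 ≤ n) (b : ℕ) (w : List (Fin n))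
    (hw : ∀ σ : Equiv.Perm (Fin n), (List.ofFn σ).Sublist w)
    (hb : ∀ v : List (Fin n), v <:+ w → ∀ a a' : Fin n, v.count a ≤ v.count a' + b) :
    (n : ℝ) ^ 2 - 16 * n * (1 + Real.log n) ^ 3 - b * n * (1 + Real.log n) ≤ w.length := by
  have h := all_bf (Fin n) b Finset.univ w
    (by rw [Finset.card_univ, Fintype.card_fin]; exact hn) (uni_of_universal hw)
    (fun v hv a _ a' _ => hb v hv a a')
  rwa [tot_univ, Finset.card_univ, Fintype.card_fin] at h

/-- the lower bound for universal concatenations of permutations -/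
theorem lower_concat {n : ℕ} (hn : 1 ≤ n) (w : List (Fin n))
    (hw : ∀ σ : Equiv.Perm (Fin n), (List.ofFn σ).Sublist w)
    (hc : ∃ Ps : List (Equiv.Perm (Fin n)),
      w = (Ps.map (fun π : Equiv.Perm (Fin n) => List.ofFn π)).flatten) :
    (n : ℝ) ^ 2 - 17 * n * (1 + Real.log n) ^ 3 ≤ w.length := by
  obtain ⟨Ps, rfl⟩ := hc
  have h := lower_balanced hn 1 _ hw (by
    intro v hv a a'
    obtain ⟨c, hc⟩ := sbal_concat Ps v hv
    have h1 := hc a
    have h2 := hc a'
    omega)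
  have h0 : 0 ≤ Real.log n := Real.log_nonneg (by exact_mod_cast hn)
  have h1 : 1 + Real.log n ≤ (1 + Real.log n) ^ 3 := by
    nlinarith [mul_nonneg h0 h0, mul_nonneg (mul_nonneg h0 h0) h0]
  have h2 : (n : ℝ) * (1 + Real.log n) ≤ n * (1 + Real.log n) ^ 3 :=
    mul_le_mul_of_nonneg_left h1 (Nat.cast_nonneg n)
  push_cast at h
  linarith

end Pool.Agent.H52.FT
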