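import Pool.Agent.H52.FT.Targets

/-!
# Universal words over `Fin n` in the language of the modules
-/

namespace Pool.Agent.H52.FT.Words

open Pool.Agent.H52.FT

variable {n : ℕ}

/-- a universal word contains every word with distinct letters -/
lemma sublist_of_universal {w : List (Fin n)}
    (hw : ∀ σ : Equiv.Perm (Fin n), (List.ofFn σ).Sublist w) (τ : List (Fin n))
    (hτ : τ.Nodup) : τ.Sublist w := by
  classical
  set σ : List (Fin n) := τ ++ (Finset.univ \ τ.toFinset).toList with hσ
  have hnd : σ.Nodup := by
    rw [hσ, List.nodup_append]
    refine ⟨hτ, Finset.nodup_toList _, ?_⟩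
    intro a ha b hb hab
    subst hab
    rw [Finset.mem_toList, Finset.mem_sdiff, List.mem_toFinset] at hb
    exact hb.2 ha
  have hlen : σ.length = n := by
    rw [hσ, List.length_append, Finset.length_toList, Finset.card_sdiff_of_subset
      (Finset.subset_univ _), Finset.card_univ, Fintype.card_fin, List.toFinset_card_of_nodup hτ]
    have h1 : τ.toFinset.card ≤ n := by
      have := Finset.card_le_univ τ.toFinset
      rwa [Fintype.card_fin] at this
    rw [List.toFinset_card_of_nodup hτ] at h1
    omega
  let e0 : Fin n → Fin n := fun i => σ.get (i.cast hlen.symm)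
  have hinj : Function.Injective e0 := by
    intro i j hij
    have := (List.nodup_iff_injective_get.mp hnd) hij
    exact Fin.cast_injective _ this
  let e : Equiv.Perm (Fin n) := Equiv.ofBijective e0 (Finite.injective_iff_bijective.mp hinj)
  have he : List.ofFn (fun i : Fin n => e i) = σ := by
    apply List.ext_getElem
    · rw [List.length_ofFn, hlen]
    · intro i h1 h2
      rw [List.getElem_ofFn]
      rfl
  have h := hw e
  have h' : List.ofFn (⇑e) = σ := he
  rw [h'] at h
  exact (List.sublist_append_left _ _).trans h

lemma uni_of_universal {w : List (Fin n)}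
    (hw : ∀ σ : Equiv.Perm (Fin n), (List.ofFn σ).Sublist w) : Uni Finset.univ w :=
  fun L hL => sublist_of_universal hw L hL.1

lemma tot_univ (w : List (Fin n)) : tot Finset.univ w = w.length := by
  have := Multiset.sum_count_eq_card (s := (Finset.univ : Finset (Fin n)))
    (m := (w : Multiset (Fin n))) (fun a _ => Finset.mem_univ a)
  unfold tot
  simpa using this

lemma sublist_flatten {α : Type*} (l : List α) (hl : ∀ a : α, a ∈ l) (τ : List α) :
    τ.Sublist (List.replicate τ.length l).flatten := by
  induction τ with
  | nil => exact List.nil_sublist _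
  | cons a τ ih =>
    rw [List.length_cons, List.replicate_succ, List.flatten_cons]
    have h1 : [a].Sublist l := List.singleton_sublist.mpr (hl a)
    exact h1.append ih

lemma exists_universal (n : ℕ) :
    ∃ w : List (Fin n), ∀ σ : Equiv.Perm (Fin n), (List.ofFn σ).Sublist w := by
  refine ⟨(List.replicate n (List.finRange n)).flatten, fun σ => ?_⟩
  have h := sublist_flatten (List.finRange n) List.mem_finRange (List.ofFn σ)
  rwa [List.length_ofFn] at h

/-- a permutation contains every letter exactly once -/
lemma count_ofFn (π : Equiv.Perm (Fin n)) (a : Fin n) : (List.ofFn π).count a = 1 := by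
  apply List.count_eq_one_of_mem
  · rw [List.nodup_ofFn]; exact π.injective
  · rw [List.mem_ofFn]; exact ⟨π.symm a, by simp⟩

/-- the suffixes of a concatenation of permutations are balanced -/
lemma sbal_concat (Ps : List (Equiv.Perm (Fin n))) :
    ∀ v : List (Fin n), v <:+ (Ps.map (fun π : Equiv.Perm (Fin n) => List.ofFn π)).flatten →
      ∃ c : ℕ, ∀ a : Fin n, c ≤ v.count a ∧ v.count a ≤ c + 1 := by
  induction Ps with
  | nil =>
    intro v hv
    simp only [List.map_nil, List.flatten_nil, List.suffix_nil] at hv
    subst hv
    exact ⟨0, fun a => by simp⟩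
  | cons π Ps ih =>
    intro v hv
    rw [List.map_cons, List.flatten_cons] at hv
    have hcnt : ∀ (Ps : List (Equiv.Perm (Fin n))) (a : Fin n),
        ((Ps.map (fun π : Equiv.Perm (Fin n) => List.ofFn π)).flatten).count a = Ps.length := by
      intro Ps a
      induction Ps with
      | nil => simp
      | cons π Ps ih => rw [List.map_cons, List.flatten_cons, List.count_append, ih, count_ofFn,
          List.length_cons, add_comm]
    obtain ⟨t, ht⟩ := hv
    rcases List.append_eq_append_iff.mp ht with ⟨C, h1, h2⟩ | ⟨C, h1, h2⟩
    · refine ⟨Ps.length, fun a => ?_⟩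
      rw [h2, List.count_append, hcnt Ps a]
      have h3 : C.count a ≤ (List.ofFn π).count a := by
        rw [h1, List.count_append]; omega
      rw [count_ofFn] at h3
      omega
    · exact ih v ⟨C, h2.symm⟩

end Pool.Agent.H52.FT.Words
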